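import Pool.Agent.Y718.FQ.Stm

/-!
# FQ-MVF: flatness in several variables (helper349, for helper718)
-/

set_option autoImplicit false

namespace Pool.Agent.Y349.FQ

open MvPolynomial Pool.Agent.Y718 Pool.Agent.Y718.SF

theorem mvf : Pool.Agent.Y718.FQ.S_MVF := by
  intro K _ _ O hO κ _ u v g hv hg h
  obtain ⟨e₀, he₀⟩ : ∃ e₀ : κ → K, eval e₀ (v * g) ≠ 0 := by
    by_contra hc
    push Not at hc
    exact mul_ne_zero hv hg (MvPolynomial.funext fun e => by rw [hc e, map_zero])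
  rw [map_mul] at he₀
  have hv0 : eval e₀ v ≠ 0 := left_ne_zero_of_mul he₀
  have hg0 : eval e₀ g ≠ 0 := right_ne_zero_of_mul he₀
  refine ⟨eval e₀ u / eval e₀ v, MvPolynomial.funext fun e₁ => ?_⟩
  rw [map_mul, eval_C]
  have hz : ∀ F : MvPolynomial κ K, (lg F e₀ (e₁ - e₀)).eval 0 = eval e₀ F := by
    intro F
    rw [lg_eval, zero_smul, add_zero]
  have ho : ∀ F : MvPolynomial κ K, (lg F e₀ (e₁ - e₀)).eval 1 = eval e₁ F := by
    intro F
    rw [lg_eval, one_smul, add_sub_cancel]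
  have hG : lg g e₀ (e₁ - e₀) ≠ 0 := by
    intro h0
    apply hg0
    rw [← hz g, h0, Polynomial.eval_zero]
  have hV : lg v e₀ (e₁ - e₀) ≠ 0 := by
    intro h0
    apply hv0
    rw [← hz v, h0, Polynomial.eval_zero]
  obtain ⟨c, hc⟩ := hO (lg v e₀ (e₁ - e₀) * lg g e₀ (e₁ - e₀))
    (lg u e₀ (e₁ - e₀) * lg g e₀ (e₁ - e₀)) (mul_ne_zero hV hG) (by
      intro s hs
      rw [Polynomial.eval_mul] at hs
      have h1 := left_ne_zero_of_mul hs
      have h2 := right_ne_zero_of_mul hs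
      rw [Polynomial.eval_mul, Polynomial.eval_mul, mul_div_mul_right _ _ h2]
      rw [lg_eval] at h1 h2
      rw [lg_eval, lg_eval]
      exact h _ h1 h2)
  rw [← mul_assoc] at hc
  have hc' := mul_right_cancel₀ hG hc
  have h0 := congrArg (Polynomial.eval 0) hc'
  have h1 := congrArg (Polynomial.eval 1) hc'
  rw [Polynomial.eval_mul, Polynomial.eval_C, hz, hz] at h0
  rw [Polynomial.eval_mul, Polynomial.eval_C, ho, ho] at h1
  rw [h1, h0, mul_div_cancel_right₀ _ hv0]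

end Pool.Agent.Y349.FQ
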